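import Pool.Agent.H.MP_cecf91_an.G

set_option autoImplicit false

namespace Pool.Agent.Results.MP_cecf91_an.No
open MeasureTheory

/-- the second dual space -/
def Bi (A : Type*) [NormedAddCommGroup A] [NormedSpace ℂ A] : Type _ :=
  StrongDual ℂ (StrongDual ℂ A)

/-- value of an element of the second dual -/
noncomputable def ev {A : Type*} [NormedAddCommGroup A] [NormedSpace ℂ A] (Φ : Bi A)
    (φ : StrongDual ℂ A) : ℂ :=
  DFunLike.coe (F := StrongDual ℂ (StrongDual ℂ A)) Φ φ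

/-- `p` is the first Arens product on the second dual of `(A, m)` -/
def IsArens {A : Type*} [NormedAddCommGroup A] [NormedSpace ℂ A] (m : A → A → A)
    (p : Bi A → Bi A → Bi A) : Prop :=
  ∀ Φ Ψ φ, ∃ η : StrongDual ℂ A, ev (p Φ Ψ) φ = ev Φ η ∧
    ∀ a, ∃ ζ : StrongDual ℂ A, (∀ b, ζ b = φ (m a b)) ∧ η a = ev Ψ ζ

/-- the second dual with its first Arens product has a non-zero element `X` of the Jacobson
radical (all left multiples are left quasi-invertible), with `X A'' X = 0` -/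
def RadNe {A : Type*} [NormedAddCommGroup A] [NormedSpace ℂ A] (m : A → A → A) : Prop :=
  ∃ p, IsArens m p ∧ ∃ X, (∃ φ, ev X φ ≠ 0) ∧ (∀ Φ φ, ev (p (p X Φ) X) φ = 0) ∧
    ∀ Φ, ∃ Ψ, ∀ φ, ev Ψ φ + ev (p Φ X) φ = ev (p Ψ (p Φ X)) φ

def Bil {A : Type*} [NormedAddCommGroup A] [NormedSpace ℂ A] (m : A → A → A) : Prop :=
  IsBoundedBilinearMap ℂ fun q : A × A => m q.1 q.2

def L1 {G : Type*} [MeasurableSpace G] (ν : Measure G) : Type _ := G →₁[ν] ℂ

noncomputable def fn {G : Type*} [MeasurableSpace G] {ν : Measure G} (f : G →₁[ν] ℂ) : G → ℂ := f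

/-- `m` is convolution on `L¹(ν)` with respect to `μ` -/
def IsConv {G : Type*} [Group G] [MeasurableSpace G] (μ ν : Measure G)
    (m : L1 ν → L1 ν → L1 ν) : Prop :=
  ∀ (f g : G → ℂ) (hf : Integrable f ν) (hg : Integrable g ν),
    fn (m (hf.toL1 f) (hg.toL1 g)) =ᵐ[μ] fun x => ∫ y, f y * g (y⁻¹ * x) ∂μ

theorem result (G : Type*) [Group G] [TopologicalSpace G] [IsTopologicalGroup G]
    [LocallyCompactSpace G] [T2Space G] [Infinite G] [MeasurableSpace G] [BorelSpace G]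
    (μ : Measure G) [μ.IsHaarMeasure] [μ.Regular] (ω : G → ℝ) (hc : Continuous ω)
    (h0 : ∀ s, 0 < ω s) (h1 : ∀ s t, ω (s * t) ≤ ω s * ω t) (h2 : ω 1 = 1)
    (ν : Measure G) (hν : ν = μ.withDensity fun x => ENNReal.ofReal (ω x))
    (m : L1 ν → L1 ν → L1 ν) (hb : Bil (A := G →₁[ν] ℂ) m) (hm : IsConv μ ν m) :
    RadNe (A := G →₁[ν] ℂ) m := by
  subst hν
  obtain ⟨p, hp⟩ := Pool.Agent.H.MP_cecf91_an.exAr hb.toContinuousLinearMap
  have key : Pool.Agent.H.MP_cecf91_an.Concl p := by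
    by_cases h : DiscreteTopology G
    · exact Pool.Agent.H.MP_cecf91_an.disc2 μ hc h0 hb.toContinuousLinearMap hm h1 h2 hp
    · exact Pool.Agent.H.MP_cecf91_an.ndisc2 μ hc h0 hb.toContinuousLinearMap hm h hp
  obtain ⟨X, x0, x1, x2⟩ := key
  refine ⟨p, fun Φ Ψ φ => ?_, X, ?_, fun Φ φ => ?_, fun Φ => ?_⟩
  · obtain ⟨η, e1, e2⟩ := hp Φ Ψ φ
    exact ⟨η, e2, fun a => ⟨φ ∘L hb.toContinuousLinearMap a, fun _ => rfl, e1 a⟩⟩
  · by_contra hh
    push Not at hh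
    exact x0 (ContinuousLinearMap.ext hh)
  · exact congrArg (fun Z => ev Z φ) (x1 Φ)
  · obtain ⟨Ψ, hΨ⟩ := x2 Φ
    exact ⟨Ψ, fun φ => congrArg (fun Z => ev Z φ) hΨ⟩

end Pool.Agent.Results.MP_cecf91_an.No
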